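import Pool.Agent.T9h20.TG.Spec

set_option autoImplicit false

/-! TG (helper20, MP_97f157_lc): interpolation and the size of the coefficients (helper51). -/

namespace Pool.Agent.T9h51.TG

open Polynomial
open Pool.Agent.T9h20.TG (SLag)

lemma coeff_step (q : Polynomial ℝ) (M : ℝ) (hM : ∀ v, |q.coeff v| ≤ M) (x y h : ℝ) (h0 : 0 < h)
    (hxy : h ≤ |x - y|) (hy : 0 ≤ y) (hy2 : y ≤ 2) (v : ℕ) :
    |(Lagrange.basisDivisor x y * q).coeff v| ≤ 3 / h * M := by
  have hM0 : 0 ≤ M := (abs_nonneg _).trans (hM 0)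
  have h1 : |(x - y)⁻¹| ≤ 1 / h := by
    rw [abs_inv, ← one_div]
    exact one_div_le_one_div_of_le h0 hxy
  have h2 : |((X - C y) * q).coeff v| ≤ 3 * M := by
    rw [sub_mul, coeff_sub, coeff_C_mul]
    have h3 : |(X * q).coeff v| ≤ M := by
      cases v with
      | zero => simpa using hM0
      | succ v =>
        rw [coeff_X_mul]
        exact hM v
    have h4 : |y * q.coeff v| ≤ 2 * M := by
      rw [abs_mul, abs_of_nonneg hy]
      exact mul_le_mul hy2 (hM v) (abs_nonneg _) (by norm_num)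
    refine (abs_sub _ _).trans ?_
    linarith
  unfold Lagrange.basisDivisor
  rw [mul_assoc, coeff_C_mul, abs_mul]
  calc |(x - y)⁻¹| * |((X - C y) * q).coeff v| ≤ 1 / h * (3 * M) :=
        mul_le_mul h1 h2 (abs_nonneg _) (by positivity)
    _ = 3 / h * M := by ring

lemma coeff_prod (A : Finset ℝ) (x h : ℝ) (h0 : 0 < h) (hA : ∀ y ∈ A, 0 ≤ y ∧ y ≤ 2 ∧ h ≤ |x - y|) :
    ∀ v, |(∏ y ∈ A, Lagrange.basisDivisor x y).coeff v| ≤ (3 / h) ^ A.card := by
  classical
  induction A using Finset.induction_on with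
  | empty =>
    intro v
    rw [Finset.prod_empty, Finset.card_empty, pow_zero, coeff_one]
    split_ifs <;> simp
  | insert a A ha ih =>
    intro v
    rw [Finset.prod_insert ha, Finset.card_insert_of_notMem ha, pow_succ, mul_comm ((3 / h) ^ A.card)]
    have h1 := hA a (Finset.mem_insert_self _ _)
    exact coeff_step _ _ (ih fun y hy => hA y (Finset.mem_insert_of_mem hy)) x a h h0 h1.2.2 h1.1 h1.2.1 v

theorem sLag : SLag := by
  classical
  intro p d S h τ h0 hd hS hS2 hsep hev v
  have hdeg : p.degree < S.card := by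
    rw [hS]
    refine lt_of_le_of_lt degree_le_natDegree ?_
    exact_mod_cast Nat.lt_succ_of_le hd
  have hp := Lagrange.eq_interpolate (v := id) (s := S) Function.injective_id.injOn hdeg
  rw [hp, Lagrange.interpolate_apply, finsetSum_coeff]
  simp only [coeff_C_mul, id]
  have hb : ∀ s ∈ S, |(Lagrange.basis S id s).coeff v| ≤ (3 / h) ^ d := by
    intro s hs
    unfold Lagrange.basis
    have h1 := coeff_prod (S.erase s) s h h0 (fun y hy => by
      have h2 := Finset.mem_erase.1 hy
      exact ⟨(hS2 y h2.2).1, (hS2 y h2.2).2, hsep s hs y h2.2 h2.1.symm⟩) v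
    rw [Finset.card_erase_of_mem hs, hS, Nat.add_sub_cancel] at h1
    exact h1
  calc |∑ s ∈ S, p.eval s * (Lagrange.basis S id s).coeff v|
      ≤ ∑ s ∈ S, |p.eval s * (Lagrange.basis S id s).coeff v| := Finset.abs_sum_le_sum_abs _ _
    _ ≤ ∑ s ∈ S, τ * (3 / h) ^ d := by
        refine Finset.sum_le_sum fun s hs => ?_
        rw [abs_mul]
        exact mul_le_mul (hev s hs) (hb s hs) (abs_nonneg _) ((abs_nonneg _).trans (hev s hs))
    _ = (d + 1) * (3 / h) ^ d * τ := by
        rw [Finset.sum_const, hS, nsmul_eq_mul]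
        push_cast
        ring

end Pool.Agent.T9h51.TG
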