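import Pool.Agent.T9h20.TG.Spec2

set_option autoImplicit false

/-! TG (helper20, MP_97f157_lc): several variables, the point named (helper51). -/

namespace Pool.Agent.T9h51.TG

open Pool.Agent.T9h20.TG (SOneG SMvG)

lemma mvFinG (hO : SOneG) (ι : Type) [Fintype ι] (d N : ℕ) (ρ : ℝ) (h0 : 0 < ρ) (h1 : ρ ≤ 1)
    (hN : Fintype.card ι ≤ N) :
    ∀ (n : ℕ) (P : ι → MvPolynomial (Fin n) ℝ) (v : ι → Fin n →₀ ℕ),
      (∀ i s, (P i).degreeOf s ≤ d) →
    ∃ l : Fin n → ℕ, (∀ s, l s ≤ N * d) ∧ ∀ i, |(P i).coeff (v i)| ≤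
      ((d + 1) * (3 * (N * d + 1) / ρ) ^ d) ^ n *
        |MvPolynomial.eval (fun s => 1 + ρ * l s / (N * d + 1)) (P i)| := by
  intro n
  induction n with
  | zero =>
    intro P v _
    refine ⟨fun s => s.elim0, fun s => s.elim0, fun i => ?_⟩
    rw [pow_zero, one_mul]
    have h2 : P i = MvPolynomial.C ((P i).coeff 0) := MvPolynomial.eq_C_of_isEmpty _
    have h3 : v i = 0 := Subsingleton.elim _ _
    rw [h3]
    conv_rhs => rw [h2, MvPolynomial.eval_C]
  | succ n ih =>
    intro P v hd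
    set K : ℝ := (d + 1) * (3 * (N * d + 1) / ρ) ^ d with hK
    have hK0 : 0 ≤ K := by rw [hK]; positivity
    obtain ⟨l', hl', hz⟩ := ih (fun i => ((MvPolynomial.finSuccEquiv ℝ n) (P i)).coeff (v i 0))
      (fun i => (v i).tail) (fun i s => (MvPolynomial.degreeOf_coeff_finSuccEquiv _ _ _).trans (hd i _))
    obtain ⟨z', hz'⟩ : ∃ z' : Fin n → ℝ, z' = fun s => 1 + ρ * l' s / (N * d + 1) := ⟨_, rfl⟩
    rw [← hz'] at hz
    obtain ⟨l, hl, hy⟩ := hO ι
      (fun i => Polynomial.map (MvPolynomial.eval z') (MvPolynomial.finSuccEquiv ℝ n (P i)))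
      (fun i => v i 0) d N ρ h0 h1 hN (fun i => by
        refine (Polynomial.natDegree_map_le).trans ?_
        rw [MvPolynomial.natDegree_finSuccEquiv]
        exact hd i 0)
    refine ⟨Fin.cons l l', fun s => ?_, fun i => ?_⟩
    · refine Fin.cases ?_ (fun s => ?_) s
      · exact hl
      · exact hl' s
    · have h2 := hz i
      have h3 := hy i
      have h4 : (fun s : Fin (n + 1) => 1 + ρ * ((Fin.cons l l' : Fin (n + 1) → ℕ) s : ℝ) / (N * d + 1)) =
          Fin.cons (1 + ρ * l / (N * d + 1)) z' := by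
        funext s
        refine Fin.cases ?_ (fun s => ?_) s
        · simp
        · simp [hz']
      rw [h4, MvPolynomial.eval_eq_eval_mv_eval']
      rw [Polynomial.coeff_map] at h3
      rw [MvPolynomial.finSuccEquiv_coeff_coeff, Finsupp.cons_tail] at h2
      rw [← hK] at h3
      calc |(P i).coeff (v i)| ≤ K ^ n * _ := h2
        _ ≤ K ^ n * (K * _) := mul_le_mul_of_nonneg_left h3 (pow_nonneg hK0 n)
        _ = _ := by ring

theorem sMvG (hO : SOneG) : SMvG := by
  intro ι σ _ _ P v d N ρ h0 h1 hN hd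
  classical
  let e : σ ≃ Fin (Fintype.card σ) := Fintype.equivFin σ
  obtain ⟨l, hl1, hl2⟩ := mvFinG hO ι d N ρ h0 h1 hN (Fintype.card σ)
    (fun i => MvPolynomial.rename e (P i)) (fun i => (v i).mapDomain e) (fun i s => by
      obtain ⟨s', rfl⟩ := e.surjective s
      rw [MvPolynomial.degreeOf_rename_of_injective e.injective]
      exact hd i s')
  refine ⟨l ∘ e, fun s => hl1 _, fun i => ?_⟩
  have h2 := hl2 i
  rw [MvPolynomial.coeff_rename_mapDomain _ e.injective, MvPolynomial.eval_rename] at h2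
  exact h2

end Pool.Agent.T9h51.TG
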